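import Mathlib
import Pool.Agent.Helper85.DN.Dense

/-!
MP_34c02d_nt: there is a `d0` such that for every `d ≥ d0` and every `m` coprime to `d` with
`m < d ^ (d / (d - 1))`, the maps `U(m, d, R)` in the class `G` without a purely periodic
trajectory have density zero.
-/

set_option autoImplicit false

namespace Pool.Agent.Results.MP_34c02d_nt.DensityOne

/-- the map `U(m, d, R)`, where `R` consists of the numbers `r i`, `1 ≤ i ≤ d - 1` -/
def Umap (m d : ℕ) (r : ℤ → ℤ) (n : ℤ) : ℤ :=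
  if (d : ℤ) ∣ n then n / (d : ℤ) else ((m : ℤ) * n - r ((m : ℤ) * n % (d : ℤ))) / (d : ℤ)

/-- the systems `R = {r 1, ..., r (d - 1)}` with `r i ≡ i` mod `d` and `|r i| ≤ X`, such that
`U(m, d, R)` maps positive integers to positive integers (the function `r` is `0` outside
`{1, ..., d - 1}`, so that it corresponds to exactly one system `R`) -/
def All (m d X : ℕ) : Set (ℤ → ℤ) :=
  {r | (∀ i : ℤ, 1 ≤ i → i ≤ (d : ℤ) - 1 → r i ≡ i [ZMOD (d : ℤ)] ∧ |r i| ≤ (X : ℤ)) ∧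
    (∀ i : ℤ, i < 1 ∨ (d : ℤ) - 1 < i → r i = 0) ∧
    ∀ n : ℤ, 0 < n → 0 < Umap m d r n}

/-- the systems in `All m d X` for which `U(m, d, R)` has no purely periodic trajectory -/
def Bad (m d X : ℕ) : Set (ℤ → ℤ) :=
  {r | r ∈ All m d X ∧ ∀ n : ℤ, 0 < n → ∀ k : ℕ, 0 < k → (Umap m d r)^[k] n ≠ n}

/-- **For every large `d` and every admissible `m`, almost all maps have a purely periodic
trajectory.** -/
theorem result : ∃ d0 : ℕ, ∀ d : ℕ, d0 ≤ d → 2 ≤ d → ∀ m : ℕ, 0 < m →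
    Nat.Coprime m d → (m : ℝ) < (d : ℝ) ^ ((d : ℝ) / ((d : ℝ) - 1)) →
    ∀ ε : ℝ, 0 < ε → ∃ X0 : ℕ, ∀ X : ℕ, X0 ≤ X →
      0 < (All m d X).ncard ∧ ((Bad m d X).ncard : ℝ) ≤ ε * ((All m d X).ncard : ℝ) :=
  GC85D.main

end Pool.Agent.Results.MP_34c02d_nt.DensityOne
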