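import Mathlib
import Pool.Agent.Helper4.SC.Main
import Pool.Agent.Helper4.SC.Num
import Pool.Agent.Helper4.SC.CntB
import Pool.Agent.Helper4.SC.CntC

/-!
MP_34c02d_nt: for `m = d + k` and small negative coefficients `- 2 B d < r_i < 0`, all but a small
proportion of the maps `U(m, d, R)` have a purely periodic trajectory, and one cycle absorbs every
`a ≤ d / (2 k)`; here `B ≥ exp(80 k / ε) / 2` and `d ≥ (2 B) ^ 3`.
-/

set_option autoImplicit false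

namespace Pool.Agent.Results.MP_34c02d_nt.SmallCoefficients

open Finset Classical SC4

/-- the map `U(m, d, R)`, where `R` consists of the numbers `r i`, `1 ≤ i ≤ d - 1` -/
def Umap (m d : ℕ) (r : ℤ → ℤ) (n : ℤ) : ℤ :=
  if (d : ℤ) ∣ n then n / (d : ℤ) else ((m : ℤ) * n - r ((m : ℤ) * n % (d : ℤ))) / (d : ℤ)

/-- the systems `R = {r 1, ..., r (d - 1)}` with `r i ≡ i` mod `d` and `- N d < r i < 0`
(the function `r` is `0` outside `{1, ..., d - 1}`, so that it corresponds to exactly one `R`) -/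
def Neg (d N : ℕ) : Set (ℤ → ℤ) :=
  {r | (∀ i : ℤ, 1 ≤ i → i ≤ (d : ℤ) - 1 →
      r i ≡ i [ZMOD (d : ℤ)] ∧ -((N : ℤ) * (d : ℤ)) < r i ∧ r i < 0) ∧
    ∀ i : ℤ, i < 1 ∨ (d : ℤ) - 1 < i → r i = 0}

/-- some positive integer `n` is purely periodic for `U(m, d, R)` and lies in the trajectory of every
`a` with `1 ≤ a ≤ A` -/
def Absorbed (m d A : ℕ) (r : ℤ → ℤ) : Prop :=
  ∃ n : ℤ, 0 < n ∧ (∃ p : ℕ, 0 < p ∧ (Umap m d r)^[p] n = n) ∧
    ∀ a : ℤ, 1 ≤ a → a ≤ (A : ℤ) → ∃ i : ℕ, (Umap m d r)^[i] a = n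

/-- **Small coefficients.** -/
theorem result : ∀ ε : ℝ, 0 < ε → ε ≤ 1 → ∀ k B d : ℕ, 1 ≤ k → Nat.Coprime d k →
    Real.exp (80 * k / ε) ≤ 2 * B → (2 * B) ^ 3 ≤ d →
      ((d + k : ℕ) : ℝ) < (d : ℝ) ^ ((d : ℝ) / ((d : ℝ) - 1)) ∧
      (∀ r ∈ Neg d (2 * B), ∀ n : ℤ, 0 < n → 0 < Umap (d + k) d r n) ∧
      (Neg d (2 * B)).ncard = (2 * B) ^ (d - 1) ∧
      (({r | r ∈ Neg d (2 * B) ∧ ¬ Absorbed (d + k) d (d / (2 * k)) r} : Set (ℤ → ℤ)).ncard : ℝ) ≤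
        ε * (2 * B) ^ (d - 1) := by
  intro ε hε hε1 k B d hk hc hB hd
  obtain ⟨ρ, J, W, l, l', hρ, h1, h2, h3, h4, hJ, hA, hM, hW, hkW, hWd, h5, h6, h8, h9, h10, h11, h7⟩ :=
    params ε hε hε1 k B d hk hB hd
  have hd2 : 2 ≤ d := by
    have h12 : d / k ≤ d := Nat.div_le_self d k
    omega
  have hB1 : 1 ≤ 2 * B := by
    have : 1 ≤ ρ ^ 5 := Nat.one_le_pow _ _ (by omega)
    omega
  have : NeZero d := ⟨by omega⟩
  have e1 : Neg d (2 * B) = SC4.Neg d (2 * B) := rfl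
  have e2 : ∀ r, Absorbed (d + k) d (d / (2 * k)) r ↔ SC4.Absorbed (d + k) d (d / (2 * k)) r :=
    fun r => Iff.rfl
  refine ⟨range_lt ε hε hε1 k B d hk hB hd, ?_, ?_, ?_⟩
  · intro r hr n hn
    exact Neg_pos k d (2 * B) hd2 hc r hr n hn
  · exact Neg_ncard d (2 * B) hd2 hB1
  · have hb := bad_le ε hε hε1 k B d ρ J W l l' hk hρ hd2 hc h1 h2 h3 h4 hJ hA hM hW hkW hWd h5 h6 h8
      h9 h10 h11 h7
    have hcnt := Neg_count d (2 * B) hd2 hB1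
      (fun r => ¬ SC4.Absorbed (d + k) d (d / (2 * k)) r) ε (by convert hb)
    push_cast at hcnt
    exact hcnt

end Pool.Agent.Results.MP_34c02d_nt.SmallCoefficients
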