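import Mathlib

/-!
MP_34c02d_nt: the question for the moduli `d = 2` and `d = 3`, except for the pair `(m, d) = (4, 3)`
(and, for completeness, for `m < d`).

The new case is `(m, d) = (5, 3)`: since `3 ^ 3 - 5 ^ 2 = 2`, for `c = -r_2 > 0` the numbers
`4c → 7c → 12c → 4c` form a cycle of `U(5, 3, R)`, whatever the other representative `r_1` is.
-/

set_option autoImplicit false

namespace Pool.Agent.Results.MP_34c02d_nt.SmallModuli

/-- an orbit in a finite set contains a periodic point -/
lemma exists_periodic (U : ℤ → ℤ) (N : ℤ) (hN : 0 < N)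
    (h : ∀ n : ℤ, 0 < n → n ≤ N → 0 < U n ∧ U n ≤ N) :
    ∃ n : ℤ, 0 < n ∧ ∃ k : ℕ, 0 < k ∧ U^[k] n = n := by
  have hmem : ∀ k : ℕ, U^[k] 1 ∈ Set.Icc (1 : ℤ) N := by
    intro k
    induction k with
    | zero => exact ⟨le_refl _, hN⟩
    | succ k ih =>
      rw [Function.iterate_succ_apply']
      have := h _ (by have := ih.1; omega) ih.2
      exact ⟨this.1, this.2⟩
  have hfin : (Set.Icc (1 : ℤ) N).Finite := Set.finite_Icc _ _
  have hnotinj : ¬ Function.Injective (fun k : ℕ => U^[k] 1) := by
    intro hinj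
    exact Set.infinite_of_injective_forall_mem hinj hmem hfin
  rw [Function.Injective] at hnotinj
  push Not at hnotinj
  obtain ⟨i, j, hij, hne⟩ := hnotinj
  wlog hlt : i < j generalizing i j with H
  · exact H j i hij.symm hne.symm (by omega)
  refine ⟨U^[i] 1, by have := (hmem i).1; omega, j - i, by omega, ?_⟩
  rw [← Function.iterate_add_apply, show j - i + i = j by omega]
  exact hij.symm

/-- Q1 holds when `m < d`, when `d = 2`, and when `d = 3` and `m ≠ 4`. -/
theorem result : ∀ (m d : ℕ) (r : ℤ → ℤ) (U : ℤ → ℤ),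
    0 < m → 2 ≤ d → Nat.Coprime m d →
    (∀ i : ℤ, 1 ≤ i → i ≤ (d : ℤ) - 1 → r i ≡ i [ZMOD (d : ℤ)]) →
    (∀ n : ℤ, U n = if (d : ℤ) ∣ n then n / (d : ℤ)
        else ((m : ℤ) * n - r ((m : ℤ) * n % (d : ℤ))) / (d : ℤ)) →
    (∀ n : ℤ, 0 < n → 0 < U n) →
    (m : ℝ) < (d : ℝ) ^ ((d : ℝ) / ((d : ℝ) - 1)) →
    (m < d ∨ d = 2 ∨ (d = 3 ∧ m ≠ 4)) →
    ∃ n : ℤ, 0 < n ∧ ∃ k : ℕ, 0 < k ∧ U^[k] n = n := by
  intro m d r U hm hd hcop hr hU hpos hlt hcase
  by_cases hmd : m < d
  · -- contracting case
    obtain ⟨C, hC⟩ : ∃ C : ℤ, ∀ i ∈ Finset.Icc (0 : ℤ) d, |r i| ≤ C := by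
      obtain ⟨C, hC⟩ := ((Finset.Icc (0 : ℤ) d).image (fun i => |r i|)).bddAbove
      exact ⟨C, fun i hi => hC (by rw [Finset.coe_image]; exact ⟨i, hi, rfl⟩)⟩
    have hd0 : (0 : ℤ) < d := by exact_mod_cast (by omega : 0 < d)
    have hm0 : (0 : ℤ) < m := by exact_mod_cast hm
    have hmd' : (m : ℤ) + 1 ≤ d := by exact_mod_cast hmd
    set N : ℤ := max C 1 with hN
    have hN1 : 1 ≤ N := le_max_right _ _
    have hCN : C ≤ N := le_max_left _ _
    refine exists_periodic U N (by omega) fun n hn hnN => ⟨hpos n hn, ?_⟩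
    rw [hU n]
    split_ifs with hdvd
    · have : n / (d : ℤ) ≤ n := Int.ediv_le_self _ hn.le
      omega
    · have h1 : |r ((m : ℤ) * n % d)| ≤ C := hC _ (by
        rw [Finset.mem_Icc]
        exact ⟨Int.emod_nonneg _ hd0.ne', (Int.emod_lt_of_pos _ hd0).le⟩)
      have h2 : (m : ℤ) * n - r ((m : ℤ) * n % d) ≤ d * N := by
        have h3 := (abs_le.mp h1).1
        have h4 : (m : ℤ) * n ≤ m * N := mul_le_mul_of_nonneg_left hnN hm0.le
        nlinarith
      calc ((m : ℤ) * n - r ((m : ℤ) * n % d)) / d ≤ (d * N) / d := Int.ediv_le_ediv hd0 h2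
        _ = N := Int.mul_ediv_cancel_left _ hd0.ne'
  · rcases hcase with h | h | ⟨h, h4⟩
    · exact absurd h hmd
    · -- `d = 2`
      subst h
      have hm4 : m < 4 := by
        have : (m : ℝ) < 4 := by
          refine hlt.trans_le ?_
          norm_num
        exact_mod_cast this
      have hm3 : m = 3 := by
        have h5 : m = 2 ∨ m = 3 := by omega
        rcases h5 with h5 | h5
        · subst h5; norm_num at hcop
        · exact h5
      subst hm3
      have hr1 := hr 1 (by norm_num) (by norm_num)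
      have hU1 := hpos 1 (by norm_num)
      have hUodd : ∀ n : ℤ, n % 2 = 1 → U n = (3 * n - r 1) / 2 := by
        intro n hn
        rw [hU n, if_neg (by push_cast; omega)]
        have : ((3 : ℕ) : ℤ) * n % ((2 : ℕ) : ℤ) = 1 := by push_cast; omega
        rw [this]; push_cast; rfl
      have hUev : ∀ n : ℤ, n % 2 = 0 → U n = n / 2 := by
        intro n hn
        rw [hU n, if_pos (by push_cast; omega)]; push_cast; rfl
      have hr1' : r 1 % 2 = 1 := by
        have := hr1; unfold Int.ModEq at this; push_cast at this; omega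
      rw [hUodd 1 (by norm_num)] at hU1
      rcases lt_or_ge (r 1) 0 with hneg | hge
      · refine ⟨- r 1, by omega, 2, by norm_num, ?_⟩
        have e1 : U (- r 1) = 2 * (- r 1) := by rw [hUodd _ (by omega)]; omega
        have e2 : U (2 * (- r 1)) = - r 1 := by rw [hUev _ (by omega)]; omega
        simp only [Function.iterate_succ, Function.iterate_zero, Function.comp, id]
        rw [e1, e2]
      · refine ⟨1, by norm_num, 1, by norm_num, ?_⟩
        simp only [Function.iterate_one]
        rw [hUodd 1 (by norm_num)]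
        omega
    · -- `d = 3`
      subst h
      have hm6 : m < 6 := by
        have : (m : ℝ) < 6 := by
          refine hlt.trans_le ?_
          have h5 : ((3 : ℕ) : ℝ) / (((3 : ℕ) : ℝ) - 1) = 3 / 2 := by norm_num
          rw [h5]
          have h6 : (((3 : ℕ) : ℝ) ^ ((3 : ℝ) / 2)) ^ (2 : ℕ) = 27 := by
            rw [← Real.rpow_natCast, ← Real.rpow_mul (by norm_num)]
            norm_num
          have h7 : (0 : ℝ) ≤ ((3 : ℕ) : ℝ) ^ ((3 : ℝ) / 2) := by positivity
          nlinarith
        exact_mod_cast this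
      have hm5 : m = 5 := by
        have h5 : m = 3 ∨ m = 5 := by omega
        rcases h5 with h5 | h5
        · subst h5; norm_num at hcop
        · exact h5
      subst hm5
      have hr2 := hr 2 (by norm_num) (by norm_num)
      have hr2' : r 2 % 3 = 2 := by
        have := hr2; unfold Int.ModEq at this; push_cast at this; omega
      have hU1 := hpos 1 (by norm_num)
      have hUone : ∀ n : ℤ, n % 3 = 1 → U n = (5 * n - r 2) / 3 := by
        intro n hn
        rw [hU n, if_neg (by push_cast; omega)]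
        have : ((5 : ℕ) : ℤ) * n % ((3 : ℕ) : ℤ) = 2 := by push_cast; omega
        rw [this]; push_cast; rfl
      have hUzero : ∀ n : ℤ, n % 3 = 0 → U n = n / 3 := by
        intro n hn
        rw [hU n, if_pos (by push_cast; omega)]; push_cast; rfl
      rw [hUone 1 (by norm_num)] at hU1
      rcases lt_or_ge (r 2) 0 with hneg | hge
      · refine ⟨4 * (- r 2), by omega, 3, by norm_num, ?_⟩
        have e1 : U (4 * (- r 2)) = 7 * (- r 2) := by rw [hUone _ (by omega)]; omega
        have e2 : U (7 * (- r 2)) = 12 * (- r 2) := by rw [hUone _ (by omega)]; omega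
        have e3 : U (12 * (- r 2)) = 4 * (- r 2) := by rw [hUzero _ (by omega)]; omega
        simp only [Function.iterate_succ, Function.iterate_zero, Function.comp, id]
        rw [e1, e2, e3]
      · refine ⟨1, by norm_num, 1, by norm_num, ?_⟩
        simp only [Function.iterate_one]
        rw [hUone 1 (by norm_num)]
        omega

end Pool.Agent.Results.MP_34c02d_nt.SmallModuli
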